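import Mathlib
import Pool.Agent.Helper94.AvgGroup

/-!
The set of average element orders of finite groups is dense in `[4, ∞)`.
-/

namespace Pool.Agent.Results.MP_d1f1b8_al.DenseFromFour

open Pool.Agent.Helper94

/-- The average element order `o(G) = ψ(G) / |G|` of a finite group `G`. -/
noncomputable def avgOrder (G : Type) [Group G] [Fintype G] : ℝ :=
  (∑ g : G, (orderOf g : ℝ)) / (Fintype.card G : ℝ)

/-- The set `Im(o)` of all average element orders of finite groups. -/
def imAvgOrder : Set ℝ :=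
  {x | ∃ (G : Type) (_ : Group G) (_ : Fintype G), x = avgOrder G}

/-- auxiliary weighted average -/
noncomputable def omega (m : ℕ) (T : Type) [Group T] [Fintype T] : ℝ :=
  (∑ t : T, (Nat.lcm m (orderOf t) : ℝ)) / (Fintype.card T : ℝ)

/-- power of a cyclic group -/
abbrev CP (m M : ℕ) := Fin M → Multiplicative (ZMod m)

lemma orderOf_CP_dvd (m M : ℕ) (κ : CP m M) : orderOf κ ∣ m := by
  apply orderOf_dvd_of_pow_eq_one
  funext i
  rw [Pi.pow_apply, Pi.one_apply]
  apply Multiplicative.toAdd.injective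
  rw [toAdd_pow, toAdd_one]
  simp

lemma orderOf_CP_eq (m M : ℕ) (κ : CP m M) (i : Fin M)
    (h : κ i = Multiplicative.ofAdd 1) : orderOf κ = m := by
  apply Nat.dvd_antisymm (orderOf_CP_dvd m M κ)
  have h1 : κ i ^ orderOf κ = 1 := by
    rw [← Pi.pow_apply, pow_orderOf_eq_one]
    rfl
  rw [h, ← ofAdd_nsmul] at h1
  have h2 : (orderOf κ : ZMod m) = 0 := by
    have := Multiplicative.ofAdd.injective (h1.trans ofAdd_zero.symm)
    simpa using this
  exact (ZMod.natCast_eq_zero_iff _ _).1 h2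

lemma avg_le_omega (m M : ℕ) (hm : 0 < m) [NeZero m] (T : Type) [Group T] [Fintype T] :
    avgOrder (CP m M × T) ≤ omega m T := by
  classical
  unfold avgOrder omega
  have hT : (0 : ℝ) < Fintype.card T := by exact_mod_cast Fintype.card_pos
  have hC : (0 : ℝ) < Fintype.card (CP m M) := by exact_mod_cast Fintype.card_pos
  rw [Fintype.card_prod, Nat.cast_mul, div_le_div_iff₀ (mul_pos hC hT) hT, Fintype.sum_prod_type]
  have : ∑ κ : CP m M, ∑ t : T, (orderOf (κ, t) : ℝ) ≤
      ∑ _κ : CP m M, ∑ t : T, (Nat.lcm m (orderOf t) : ℝ) := by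
    apply Finset.sum_le_sum
    intro κ _
    apply Finset.sum_le_sum
    intro t _
    rw [Prod.orderOf_mk]
    norm_cast
    apply Nat.le_of_dvd
    · exact Nat.lcm_pos hm (orderOf_pos t)
    · exact Nat.lcm_dvd ((orderOf_CP_dvd m M κ).trans (Nat.dvd_lcm_left _ _))
        (Nat.dvd_lcm_right _ _)
  rw [Finset.sum_const, Finset.card_univ, nsmul_eq_mul] at this
  nlinarith [this, hT]

/-- elements of `CP m M` having a coordinate equal to the generator -/
def goodSet (m M : ℕ) [NeZero m] : Finset (CP m M) :=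
  Finset.univ.filter (fun κ => ∃ i, κ i = Multiplicative.ofAdd 1)

lemma card_goodSet (m M : ℕ) [NeZero m] :
    ((goodSet m M).card : ℝ) = (m : ℝ) ^ M - ((m : ℝ) - 1) ^ M := by
  classical
  have h1 : (goodSet m M).card +
      (Finset.univ.filter (fun κ : CP m M => ¬ ∃ i, κ i = Multiplicative.ofAdd 1)).card
      = m ^ M := by
    unfold goodSet
    rw [Finset.card_filter_add_card_filter_not, Finset.card_univ]
    simp [ZMod.card]
  have h2 : (Finset.univ.filter (fun κ : CP m M => ¬ ∃ i, κ i = Multiplicative.ofAdd 1)) =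
      Fintype.piFinset (fun _ : Fin M =>
        (Finset.univ.filter (fun a : Multiplicative (ZMod m) => a ≠ Multiplicative.ofAdd 1))) := by
    ext κ
    simp [Fintype.mem_piFinset]
  have h3 : (Finset.univ.filter
      (fun a : Multiplicative (ZMod m) => a ≠ Multiplicative.ofAdd 1)).card + 1 = m := by
    have h4 : (Finset.univ.filter
      (fun a : Multiplicative (ZMod m) => a ≠ Multiplicative.ofAdd 1)) =
        Finset.univ.erase (Multiplicative.ofAdd 1) := by
      ext a
      simp
    rw [h4, Finset.card_erase_add_one (Finset.mem_univ _), Finset.card_univ]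
    simp [ZMod.card]
  rw [h2, Fintype.card_piFinset_const] at h1
  have h5 : ((Finset.univ.filter
      (fun a : Multiplicative (ZMod m) => a ≠ Multiplicative.ofAdd 1)).card : ℝ) = (m : ℝ) - 1 := by
    have : (((Finset.univ.filter
      (fun a : Multiplicative (ZMod m) => a ≠ Multiplicative.ofAdd 1)).card + 1 : ℕ) : ℝ) = m := by
      rw [h3]
    push_cast at this
    linarith
  have h6 : (((goodSet m M).card : ℕ) : ℝ) + ((m : ℝ) - 1) ^ M = (m : ℝ) ^ M := by
    rw [← h5]
    exact_mod_cast h1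
  linarith

lemma omega_le_avg (m M : ℕ) [NeZero m] (T : Type) [Group T] [Fintype T] :
    (1 - (((m : ℝ) - 1) / m) ^ M) * omega m T ≤ avgOrder (CP m M × T) := by
  classical
  unfold avgOrder omega
  have hm : (0 : ℝ) < m := by exact_mod_cast Nat.pos_of_ne_zero (NeZero.ne m)
  have hT : (0 : ℝ) < Fintype.card T := by exact_mod_cast Fintype.card_pos
  have hC : (Fintype.card (CP m M) : ℝ) = (m : ℝ) ^ M := by
    simp [ZMod.card]
  have hCpos : (0 : ℝ) < (m : ℝ) ^ M := pow_pos hm M
  rw [Fintype.card_prod, Nat.cast_mul, hC, Fintype.sum_prod_type]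
  have h1 : ((goodSet m M).card : ℝ) * ∑ t : T, (Nat.lcm m (orderOf t) : ℝ) ≤
      ∑ κ : CP m M, ∑ t : T, (orderOf (κ, t) : ℝ) := by
    calc ((goodSet m M).card : ℝ) * ∑ t : T, (Nat.lcm m (orderOf t) : ℝ)
        = ∑ κ ∈ goodSet m M, ∑ t : T, (Nat.lcm m (orderOf t) : ℝ) := by
          rw [Finset.sum_const, nsmul_eq_mul]
      _ = ∑ κ ∈ goodSet m M, ∑ t : T, (orderOf (κ, t) : ℝ) := by
          apply Finset.sum_congr rfl
          intro κ hκ
          apply Finset.sum_congr rfl
          intro t _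
          simp only [goodSet, Finset.mem_filter, Finset.mem_univ, true_and] at hκ
          obtain ⟨i, hi⟩ := hκ
          rw [Prod.orderOf_mk, orderOf_CP_eq m M κ i hi]
      _ ≤ ∑ κ : CP m M, ∑ t : T, (orderOf (κ, t) : ℝ) := by
          apply Finset.sum_le_sum_of_subset_of_nonneg (Finset.subset_univ _)
          intro κ _ _
          apply Finset.sum_nonneg
          intro t _
          exact Nat.cast_nonneg _
  rw [card_goodSet] at h1
  have h2 : (1 - (((m : ℝ) - 1) / m) ^ M) =
      ((m : ℝ) ^ M - ((m : ℝ) - 1) ^ M) / (m : ℝ) ^ M := by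
    rw [div_pow]
    field_simp
  rw [h2, div_mul_div_comm]
  apply div_le_div_of_nonneg_right h1 (by positivity)

/-- If the weighted average `omega m T` lies in an open interval, then the interval contains an
average order. -/
lemma exists_of_omega (m : ℕ) [NeZero m] (T : Type) [Group T] [Fintype T] (u v : ℝ)
    (hu : u < omega m T) (hv : omega m T < v) : ∃ x ∈ imAvgOrder, u < x ∧ x < v := by
  have hm : (0 : ℝ) < m := by exact_mod_cast Nat.pos_of_ne_zero (NeZero.ne m)
  have hm1 : (1 : ℝ) ≤ m := by exact_mod_cast Nat.pos_of_ne_zero (NeZero.ne m)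
  have hlim : Filter.Tendsto (fun M : ℕ => (1 - (((m : ℝ) - 1) / m) ^ M) * omega m T)
      Filter.atTop (nhds ((1 - 0) * omega m T)) := by
    apply Filter.Tendsto.mul_const
    apply Filter.Tendsto.const_sub
    apply tendsto_pow_atTop_nhds_zero_of_lt_one
    · apply div_nonneg (by linarith) hm.le
    · rw [div_lt_one hm]
      linarith
  rw [sub_zero, one_mul] at hlim
  obtain ⟨M, hM⟩ := (hlim.eventually (lt_mem_nhds hu)).exists
  refine ⟨avgOrder (CP m M × T), ⟨_, _, _, rfl⟩, ?_, ?_⟩
  · exact hM.trans_le (omega_le_avg m M T)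
  · exact (avg_le_omega m M (Nat.pos_of_ne_zero (NeZero.ne m)) T).trans_lt hv

/-- fraction of elements of `Gp n` with trivial fourth power -/
noncomputable def alpha (n : ℕ) : ℝ :=
  ((Finset.univ.filter (fun x : Gp n => x ^ 4 = 1)).card : ℝ) / (Fintype.card (Gp n) : ℝ)

lemma alpha_lt_one (n : ℕ) : alpha n < 1 := by
  unfold alpha
  have hC : (0 : ℝ) < Fintype.card (Gp n) := by exact_mod_cast Fintype.card_pos
  rw [div_lt_one hC]
  norm_cast
  rw [← Finset.card_univ]
  apply Finset.card_lt_card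
  rw [Finset.filter_ssubset]
  obtain ⟨x, hx⟩ := Gp.exists_bad (n := n)
  exact ⟨x, Finset.mem_univ _, hx⟩

lemma le_alpha (n : ℕ) : 1 - 1 / (2 * (2 : ℝ) ^ n) ≤ alpha n := by
  unfold alpha
  have hC : (0 : ℝ) < Fintype.card (Gp n) := by exact_mod_cast Fintype.card_pos
  have h1 : (Finset.univ.filter (fun x : Gp n => x ^ 4 = 1)).card +
      (Finset.univ.filter (fun x : Gp n => x ^ 4 ≠ 1)).card = Fintype.card (Gp n) := by
    rw [Finset.card_filter_add_card_filter_not, Finset.card_univ]
  have h2 := Gp.card_bad (n := n)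
  have h3 : ((Finset.univ.filter (fun x : Gp n => x ^ 4 = 1)).card : ℝ) +
      ((Finset.univ.filter (fun x : Gp n => x ^ 4 ≠ 1)).card : ℝ) = Fintype.card (Gp n) := by
    exact_mod_cast h1
  have h4 : ((Finset.univ.filter (fun x : Gp n => x ^ 4 ≠ 1)).card : ℝ) * (2 * 2 ^ n) ≤
      Fintype.card (Gp n) := by
    exact_mod_cast h2
  have h5 : (0 : ℝ) < 2 * 2 ^ n := by positivity
  rw [le_div_iff₀ hC, sub_mul, one_mul, one_div, ← h3]
  have h6 : ((Finset.univ.filter (fun x : Gp n => x ^ 4 ≠ 1)).card : ℝ) ≤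
      (2 * 2 ^ n)⁻¹ * Fintype.card (Gp n) := by
    rw [inv_mul_eq_div, le_div_iff₀ h5]
    exact h4
  rw [h3]
  linarith

lemma orderOf_lcm (n k a : ℕ) (ha : Odd a) (y : Fin k → Gp n) :
    Nat.lcm (4 * a) (orderOf y) = if y ^ 4 = 1 then 4 * a else 2 * (4 * a) := by
  have h8 : y ^ 8 = 1 := by
    funext i
    rw [Pi.pow_apply, Gp.pow_eight]
    rfl
  split_ifs with h
  · have : orderOf y ∣ 4 := orderOf_dvd_of_pow_eq_one h
    exact Nat.lcm_eq_left (this.trans (Dvd.intro _ rfl))
  · have h1 : orderOf y = 2 ^ 3 := by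
      apply orderOf_eq_prime_pow
      · simpa using h
      · simpa using h8
    rw [h1]
    apply Nat.dvd_antisymm
    · apply Nat.lcm_dvd
      · exact Dvd.intro_left _ rfl
      · exact ⟨a, by ring⟩
    · have h2 : Nat.Coprime 8 a := by
        have : Nat.Coprime (2 ^ 3) a := Nat.Coprime.pow_left 3 (Nat.coprime_two_left.2 ha)
        simpa using this
      have h3 : 8 * a ∣ Nat.lcm (4 * a) (2 ^ 3) := by
        apply Nat.Coprime.mul_dvd_of_dvd_of_dvd h2
        · exact Nat.dvd_lcm_right _ _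
        · exact (Dvd.intro_left _ rfl).trans (Nat.dvd_lcm_left _ _)
      calc 2 * (4 * a) = 8 * a := by ring
        _ ∣ _ := h3

lemma card_pow_four (n k : ℕ) :
    (Finset.univ.filter (fun y : Fin k → Gp n => y ^ 4 = 1)).card =
      (Finset.univ.filter (fun x : Gp n => x ^ 4 = 1)).card ^ k := by
  rw [← Fintype.card_piFinset_const]
  congr 1
  ext y
  simp only [Finset.mem_filter, Finset.mem_univ, true_and, Fintype.mem_piFinset]
  constructor
  · intro h i
    rw [← Pi.pow_apply, h]
    rfl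
  · intro h
    funext i
    rw [Pi.pow_apply, h i]
    rfl

lemma omega_eq (n k a : ℕ) (ha : Odd a) (S : Type) [Group S] [Fintype S] (c : ℝ)
    (h1 : ∑ s : S, (Nat.lcm (4 * a) (orderOf s) : ℝ) = c * Fintype.card S)
    (h2 : ∑ s : S, (Nat.lcm (2 * (4 * a)) (orderOf s) : ℝ) = 2 * c * Fintype.card S) :
    omega (4 * a) ((Fin k → Gp n) × S) = c * (2 - alpha n ^ k) := by
  classical
  unfold omega
  have hG : (0 : ℝ) < Fintype.card (Gp n) := by exact_mod_cast Fintype.card_pos
  have hS : (0 : ℝ) < Fintype.card S := by exact_mod_cast Fintype.card_pos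
  rw [Fintype.card_prod, Nat.cast_mul, Fintype.sum_prod_type]
  have h3 : ∀ y : Fin k → Gp n, ∑ s : S, (Nat.lcm (4 * a) (orderOf (y, s)) : ℝ) =
      2 * c * Fintype.card S - (if y ^ 4 = 1 then c * Fintype.card S else 0) := by
    intro y
    have h4 : ∀ s : S, Nat.lcm (4 * a) (orderOf (y, s)) =
        Nat.lcm (if y ^ 4 = 1 then 4 * a else 2 * (4 * a)) (orderOf s) := by
      intro s
      rw [Prod.orderOf_mk, ← Nat.lcm_assoc, orderOf_lcm n k a ha y]
    simp only [h4]
    split_ifs with h
    · rw [h1]; ring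
    · rw [h2]; ring
  simp only [h3]
  rw [Finset.sum_sub_distrib, Finset.sum_const, Finset.card_univ, ← Finset.sum_filter,
    Finset.sum_const, card_pow_four, nsmul_eq_mul, nsmul_eq_mul, Fintype.card_fun, Fintype.card_fin]
  unfold alpha
  rw [div_pow]
  push_cast
  field_simp

/-- Main step: the interval `[c, 2c]`. -/
lemma main_step (a : ℕ) (ha : Odd a) (S : Type) [Group S] [Fintype S] (c : ℝ) (hc : 0 < c)
    (h1 : ∑ s : S, (Nat.lcm (4 * a) (orderOf s) : ℝ) = c * Fintype.card S)
    (h2 : ∑ s : S, (Nat.lcm (2 * (4 * a)) (orderOf s) : ℝ) = 2 * c * Fintype.card S)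
    (u v : ℝ) (hcu : c ≤ u) (huc : u < 2 * c) (huv : u < v) :
    ∃ x ∈ imAvgOrder, u < x ∧ x < v := by
  set v' := min v (2 * c) with hv'
  have huv' : u < v' := lt_min huv huc
  have hv'v : v' ≤ v := min_le_left _ _
  have hv'c : v' ≤ 2 * c := min_le_right _ _
  set A := 2 - v' / c with hA
  set B := 2 - u / c with hB
  have hA0 : 0 ≤ A := by
    rw [hA, sub_nonneg, div_le_iff₀ hc]
    exact hv'c
  have hAB : A < B := by
    rw [hA, hB]
    have : u / c < v' / c := div_lt_div_of_pos_right huv' hc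
    linarith
  have hB1 : B ≤ 1 := by
    rw [hB]
    have : 1 ≤ u / c := by
      rw [le_div_iff₀ hc]
      linarith
    linarith
  have hB0 : 0 < B := lt_of_le_of_lt hA0 hAB
  -- choose n
  have hlim : Filter.Tendsto (fun n : ℕ => B * (1 - (1 / 2) * (1 / 2 : ℝ) ^ n))
      Filter.atTop (nhds (B * (1 - (1 / 2) * 0))) := by
    apply Filter.Tendsto.const_mul
    apply Filter.Tendsto.const_sub
    apply Filter.Tendsto.const_mul
    apply tendsto_pow_atTop_nhds_zero_of_lt_one <;> norm_num
  rw [mul_zero, sub_zero, mul_one] at hlim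
  obtain ⟨n, hn⟩ := (hlim.eventually (lt_mem_nhds hAB)).exists
  have hn' : A < B * alpha n := by
    refine hn.trans_le ?_
    apply mul_le_mul_of_nonneg_left _ hB0.le
    refine le_trans (le_of_eq ?_) (le_alpha n)
    rw [one_div_pow]
    field_simp
  have hα0 : 0 < alpha n := by
    by_contra hneg
    push Not at hneg
    have : B * alpha n ≤ 0 := mul_nonpos_of_nonneg_of_nonpos hB0.le hneg
    linarith
  obtain ⟨k, hk1, hk2⟩ := exists_pow_btwn_of_lt_mul hn' hB0 hB1 hα0 (alpha_lt_one n)
  have ha0 : 0 < 4 * a := by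
    have := ha.pos
    omega
  have : NeZero (4 * a) := ⟨ha0.ne'⟩
  have key := omega_eq n k a ha S c h1 h2
  obtain ⟨x, hx, hx1, hx2⟩ := exists_of_omega (4 * a) ((Fin k → Gp n) × S) u v'
    (by
      rw [key]
      rw [hB] at hk2
      have : alpha n ^ k * c < 2 * c - u := by
        calc alpha n ^ k * c < (2 - u / c) * c := mul_lt_mul_of_pos_right hk2 hc
          _ = 2 * c - u := by field_simp
      nlinarith)
    (by
      rw [key]
      rw [hA] at hk1
      have : 2 * c - v' < alpha n ^ k * c := by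
        calc 2 * c - v' = (2 - v' / c) * c := by field_simp
          _ < alpha n ^ k * c := mul_lt_mul_of_pos_right hk1 hc
      nlinarith)
  exact ⟨x, hx, hx1, hx2.trans_le hv'v⟩

/-- Case of a trivial extra factor: intervals `[4a, 8a]` with `a` odd. -/
lemma step_odd (a : ℕ) (ha : Odd a) (u v : ℝ) (hcu : 4 * (a : ℝ) ≤ u)
    (huc : u < 8 * (a : ℝ)) (huv : u < v) : ∃ x ∈ imAvgOrder, u < x ∧ x < v := by
  have hpos : (0 : ℝ) < a := by exact_mod_cast ha.pos
  refine main_step a ha (Multiplicative (ZMod 1)) (4 * a) (by linarith) ?_ ?_ u v hcu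
    (by linarith) huv
  · have : ∀ s : Multiplicative (ZMod 1), orderOf s = 1 := by
      intro s
      rw [orderOf_eq_one_iff]
      exact Subsingleton.elim _ _
    simp only [this, Nat.lcm_one_right]
    simp
  · have : ∀ s : Multiplicative (ZMod 1), orderOf s = 1 := by
      intro s
      rw [orderOf_eq_one_iff]
      exact Subsingleton.elim _ _
    simp only [this, Nat.lcm_one_right]
    simp

lemma sum_dihedral (m : ℕ) : ∑ s : DihedralGroup 3, (Nat.lcm m (orderOf s) : ℝ) =
    (Nat.lcm m 1 : ℝ) + 2 * (Nat.lcm m 3 : ℝ) + 3 * (Nat.lcm m 2 : ℝ) := by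
  have h : ∑ s : DihedralGroup 3, (Nat.lcm m (orderOf s) : ℝ) =
      ∑ i : ZMod 3, (Nat.lcm m (orderOf (DihedralGroup.r i)) : ℝ) +
      ∑ i : ZMod 3, (Nat.lcm m (orderOf (DihedralGroup.sr i)) : ℝ) := by
    have h0 := Fintype.sum_sum_type (fun x : ZMod 3 ⊕ ZMod 3 => Sum.elim
      (fun i => (Nat.lcm m (orderOf (DihedralGroup.r i)) : ℝ))
      (fun i => (Nat.lcm m (orderOf (DihedralGroup.sr i)) : ℝ)) x)
    simp only [Sum.elim_inl, Sum.elim_inr] at h0
    rw [← h0]
    symm
    refine (Fintype.sum_equiv DihedralGroup.equivSum.symm _ _ ?_)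
    intro x
    cases x <;> rfl
  rw [h]
  have h1 : ∀ i : ZMod 3, orderOf (DihedralGroup.sr i) = 2 := fun i => DihedralGroup.orderOf_sr i
  have h2 : ∀ i : ZMod 3, orderOf (DihedralGroup.r i) = 3 / Nat.gcd 3 i.val :=
    fun i => DihedralGroup.orderOf_r i
  simp only [h1, h2]
  have h3 : (Finset.univ : Finset (ZMod 3)) = {0, 1, 2} := by decide
  rw [h3, Finset.sum_insert (by decide), Finset.sum_insert (by decide), Finset.sum_singleton,
    Finset.sum_insert (by decide), Finset.sum_insert (by decide), Finset.sum_singleton]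
  have e0 : 3 / Nat.gcd 3 (0 : ZMod 3).val = 1 := by decide
  have e1 : 3 / Nat.gcd 3 (1 : ZMod 3).val = 3 := by decide
  have e2 : 3 / Nat.gcd 3 (2 : ZMod 3).val = 3 := by decide
  rw [e0, e1, e2]
  ring

/-- Case of the symmetric group `S_3`: the interval `[20/3, 40/3]`. -/
lemma step_dihedral (u v : ℝ) (hcu : 20 / 3 ≤ u) (huc : u < 40 / 3) (huv : u < v) :
    ∃ x ∈ imAvgOrder, u < x ∧ x < v := by
  refine main_step 1 odd_one (DihedralGroup 3) (20 / 3) (by norm_num) ?_ ?_ u v hcu
    (by linarith) huv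
  · rw [sum_dihedral]
    have e1 : Nat.lcm (4 * 1) 1 = 4 := by decide
    have e2 : Nat.lcm (4 * 1) 2 = 4 := by decide
    have e3 : Nat.lcm (4 * 1) 3 = 12 := by decide
    rw [e1, e2, e3, DihedralGroup.card]
    norm_num
  · rw [sum_dihedral]
    have e1 : Nat.lcm (2 * (4 * 1)) 1 = 8 := by decide
    have e2 : Nat.lcm (2 * (4 * 1)) 2 = 8 := by decide
    have e3 : Nat.lcm (2 * (4 * 1)) 3 = 24 := by decide
    rw [e1, e2, e3, DihedralGroup.card]
    norm_num

/-- `Im(o)` is dense in `[4, ∞)`: every nonempty open interval `(u, v)` contained in `[4, ∞)`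
contains the average element order of some finite group. -/
theorem result : ∀ u v : ℝ, 4 ≤ u → u < v → ∃ x ∈ imAvgOrder, u < x ∧ x < v := by
  intro u v hu huv
  by_cases h1 : u < 8
  · exact step_odd 1 odd_one u v (by simpa using hu) (by simpa using h1) huv
  · push Not at h1
    by_cases h2 : u < 40 / 3
    · exact step_dihedral u v (by linarith) h2 huv
    · push Not at h2
      -- the odd number `2 * j + 1` with `4 * (2 j + 1) ≤ u < 4 * (2 j + 3)`
      obtain ⟨j, hj⟩ : ∃ j : ℕ, j = ⌊(u - 4) / 8⌋₊ := ⟨_, rfl⟩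
      have hnn : 0 ≤ (u - 4) / 8 := by linarith
      have hj1 : (j : ℝ) ≤ (u - 4) / 8 := by
        rw [hj]
        exact Nat.floor_le hnn
      have hj2 : (u - 4) / 8 < (j : ℝ) + 1 := by
        rw [hj]
        exact Nat.lt_floor_add_one _
      have hj3 : 1 ≤ j := by
        rw [hj]
        apply Nat.le_floor
        push_cast
        linarith
      have hj3' : (1 : ℝ) ≤ j := by exact_mod_cast hj3
      refine step_odd (2 * j + 1) ⟨j, rfl⟩ u v ?_ ?_ huv
      · push_cast
        linarith
      · push_cast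
        linarith

end Pool.Agent.Results.MP_d1f1b8_al.DenseFromFour
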